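import Mathlib
import Pool.Agent.H429R2.Auto
import Pool.Agent.H429R2.Left
import Pool.Agent.H429R2.Right

set_option autoImplicit false

/-!
# Every word occurs at almost every position

For every nonzero finite configuration `x` and every word `w` over `{0, …, 5}`, the set of
positions at which no `F^n(x)` shows `w` has density zero, with a power saving on the right.
-/

namespace Pool.Agent.Results.MP_cc0c1a_nt.AlmostAllPositions

open Pool.Agent.H429R2.Auto Filter Topology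

/-- The configuration `x` shows the word `w` starting at position `j`. -/
def Shows (x : Conf) (w : List (Fin 6)) (j : ℤ) : Prop :=
  ∀ (i : ℕ) (h : i < w.length), x (j + i) = w[i]

/-- The positions `j` at which no `F^n(x)`, `n ≥ 0`, shows `w`. -/
def missed (x : Conf) (w : List (Fin 6)) : Set ℤ := {j | ∀ n : ℕ, ¬ Shows (F^[n] x) w j}

/-- the number coding the word -/
def code (w : List (Fin 6)) : ℕ :=
  ∑ r ∈ Finset.range w.length, ((w.getD (w.length - 1 - r) 0 : Fin 6) : ℕ) * 6 ^ r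

theorem code_lt (w : List (Fin 6)) : code w < 6 ^ w.length :=
  sum_lt w.length fun r => w.getD (w.length - 1 - r) 0

theorem shows_of {x : Conf} {β : ℝ} (hβ : 0 ≤ β) (hx : Rep x β) (w : List (Fin 6)) (j : ℤ) (n : ℕ)
    (h : ⌊(6 : ℝ) ^ (j + w.length - 1) * ((3 / 2) ^ n * β)⌋₊ % 6 ^ w.length = code w) :
    Shows (F^[n] x) w j := by
  intro i hi
  have h1 := letter (rep_iter hβ hx n) j w.length (w.length - 1 - i) (by omega)
  rw [h] at h1
  have h2 := digits_sum w.length (fun r => w.getD (w.length - 1 - r) 0) (w.length - 1 - i) (by omega)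
  have e1 : j + (w.length : ℤ) - 1 - ((w.length - 1 - i : ℕ) : ℤ) = j + i := by omega
  rw [e1] at h1
  have e2 : w.length - 1 - (w.length - 1 - i) = i := by omega
  unfold code at h1
  rw [h2] at h1
  simp only [e2] at h1
  have h3 : w.getD i 0 = w[i] := by
    rw [List.getD_eq_getElem?_getD, List.getElem?_eq_getElem hi]; rfl
  rw [h3] at h1
  exact Fin.ext h1

/-- right of a fixed position the missed positions are bad indices -/
theorem right_sub {x : Conf} {m k : ℕ} (hx : Rep x ((m : ℝ) / 6 ^ k)) (w : List (Fin 6)) (j : ℤ)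
    (hj : j ∈ missed x w) (i : ℕ) (hi : j + w.length - 1 = (k : ℤ) + i) :
    i ∈ Pool.Agent.H429R2.Right.Bad m w.length (code w) := by
  intro t ht
  apply hj (i + t)
  apply shows_of (by positivity) hx
  rw [← ht]
  congr 2
  rw [hi, zpow_add₀ (by norm_num), zpow_natCast, zpow_natCast, pow_add]
  have h9 : (9 : ℝ) ^ i = 6 ^ i * (3 / 2) ^ i := by rw [← mul_pow]; norm_num
  rw [h9]
  field_simp

theorem left_sub {x : Conf} {β : ℝ} (hβ : 0 ≤ β) (hx : Rep x β) (w : List (Fin 6)) (j : ℤ)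
    (hj : j ∈ missed x w) (J : ℕ) (hJ : j + w.length - 1 = -(J : ℤ)) :
    J ∈ Pool.Agent.H429R2.Left.Bad β w.length (code w) := by
  intro n hn
  apply hj n
  apply shows_of hβ hx
  rw [← hn]
  congr 2
  rw [hJ, zpow_neg, zpow_natCast]
  field_simp

theorem right_count {x : Conf} {m k : ℕ} (hm : 0 < m) (hx : Rep x ((m : ℝ) / 6 ^ k))
    (w : List (Fin 6)) :
    ∃ δ : ℝ, 0 < δ ∧ ∃ C : ℝ, ∀ X : ℕ,
      ((missed x w ∩ Set.Icc 0 (X : ℤ)).ncard : ℝ) ≤ C * ((X : ℝ) + 1) ^ (1 - δ) := by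
  classical
  set L := w.length with hL
  set s := 3 * L + 1 with hs
  set δ : ℝ := 1 - Real.log (2 ^ s - 1) / (s * Real.log 2) with hδ
  have hl2 : 0 < Real.log 2 := Real.log_pos (by norm_num)
  have hsr : (1 : ℝ) ≤ s := by
    have : 1 ≤ s := by omega
    exact_mod_cast this
  have h2s : (2 : ℝ) ≤ 2 ^ s := by
    calc (2 : ℝ) = 2 ^ 1 := (pow_one _).symm
      _ ≤ 2 ^ s := pow_le_pow_right₀ (by norm_num) (by omega)
  have hlog : Real.log (2 ^ s - 1) < s * Real.log 2 := by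
    rw [← Real.log_pow]
    exact Real.log_lt_log (by linarith) (by linarith)
  have hlog0 : 0 ≤ Real.log (2 ^ s - 1) := Real.log_nonneg (by linarith)
  have hsl : 0 < s * Real.log 2 := by positivity
  have hδ0 : 0 < δ := by
    rw [hδ, sub_pos, div_lt_one hsl]; exact hlog
  have hδ1 : 0 ≤ 1 - δ := by
    rw [hδ]
    have : 0 ≤ Real.log (2 ^ s - 1) / (s * Real.log 2) := by positivity
    linarith
  refine ⟨δ, hδ0, k + (2 ^ s * (L + 1)) ^ (1 - δ), fun X => ?_⟩
  set K := Nat.log (2 ^ s) (X + L) + 1 with hK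
  have hb1 : 1 < 2 ^ s := Nat.one_lt_two_pow (by omega)
  have hKX : X + L < 2 ^ (K * s) := by
    rw [mul_comm, pow_mul]
    exact Nat.lt_pow_succ_log_self hb1 _
  have hKle : (2 ^ s) ^ K ≤ 2 ^ s * (L + 1) * (X + 1) := by
    rw [hK, pow_succ']
    rcases Nat.eq_zero_or_pos (X + L) with h0 | h0
    · rw [h0, Nat.log_zero_right, pow_zero]
      have : 0 < 2 ^ s := by positivity
      nlinarith [Nat.zero_le L, Nat.zero_le X, mul_nonneg (Nat.zero_le L) (Nat.zero_le X)]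
    · have h1 : (2 ^ s) ^ Nat.log (2 ^ s) (X + L) ≤ X + L := Nat.pow_log_le_self _ (by omega)
      calc 2 ^ s * (2 ^ s) ^ Nat.log (2 ^ s) (X + L) ≤ 2 ^ s * (X + L) := Nat.mul_le_mul_left _ h1
        _ ≤ 2 ^ s * ((L + 1) * (X + 1)) := Nat.mul_le_mul_left _ (by nlinarith)
        _ = _ := by ring
  have hsub : missed x w ∩ Set.Icc 0 (X : ℤ) ⊆
      (((Finset.range k).image fun a : ℕ => (a : ℤ)) : Finset ℤ) ∪
      ((fun i : ℕ => (k : ℤ) + i - L + 1) '' (Pool.Agent.H429R2.Right.Bad m L (code w) ∩ Set.Iio (X + L))) := by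
    rintro j ⟨hj, hj0, hjX⟩
    rcases lt_or_ge (j + L - 1) (k : ℤ) with h | h
    · by_cases hjk : j < k
      · left
        simp only [Finset.coe_image, Set.mem_image, Finset.coe_range, Set.mem_Iio]
        exact ⟨j.toNat, by omega, by omega⟩
      · right
        -- then L = 0 and nothing is missed
        exfalso
        have hL0 : w.length = 0 := by omega
        apply hj 0
        intro i hi
        omega
    · obtain ⟨i, hi⟩ := Int.eq_ofNat_of_zero_le (sub_nonneg.2 h)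
      right
      refine ⟨i, ⟨right_sub hx w j hj i (by omega), ?_⟩, ?_⟩
      · simp only [Set.mem_Iio]; omega
      · show (k : ℤ) + i - L + 1 = j
        omega
  have hfin : (Pool.Agent.H429R2.Right.Bad m L (code w) ∩ Set.Iio (X + L)).Finite :=
    (Set.finite_Iio (X + L)).subset Set.inter_subset_right
  have h1 : (missed x w ∩ Set.Icc 0 (X : ℤ)).ncard ≤ k + (2 ^ s - 1) ^ K := by
    refine (Set.ncard_le_ncard hsub ((Finset.finite_toSet _).union (hfin.image _))).trans ?_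
    refine (Set.ncard_union_le _ _).trans ?_
    apply Nat.add_le_add
    · rw [Set.ncard_coe_finset]
      exact Finset.card_image_le.trans (by rw [Finset.card_range])
    · exact (Set.ncard_image_le hfin).trans
        (Pool.Agent.H429R2.Right.count hm (code_lt w) (X + L) K hKX.le)
  have h2 : (((2 ^ s - 1) ^ K : ℕ) : ℝ) ≤ (2 ^ s * (L + 1)) ^ (1 - δ) * ((X : ℝ) + 1) ^ (1 - δ) := by
    rw [← Real.mul_rpow (by positivity) (by positivity)]
    have h3 : (((2 ^ s - 1) ^ K : ℕ) : ℝ) = (((2 : ℝ) ^ s) ^ K) ^ (1 - δ) := by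
      push_cast [Nat.cast_sub (show 1 ≤ 2 ^ s by omega)]
      rw [← pow_mul, ← Real.rpow_natCast 2 (s * K), ← Real.rpow_mul (by norm_num)]
      have e : ((s * K : ℕ) : ℝ) * (1 - δ) = (Real.log (2 ^ s - 1) / Real.log 2) * K := by
        rw [hδ]; push_cast; field_simp; ring
      rw [e, Real.rpow_mul (by norm_num), Real.rpow_natCast]
      congr 1
      rw [Real.rpow_def_of_pos (by norm_num)]
      rw [show Real.log 2 * (Real.log (2 ^ s - 1) / Real.log 2) = Real.log (2 ^ s - 1) by field_simp]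
      rw [Real.exp_log (by linarith)]
    rw [h3]
    apply Real.rpow_le_rpow (by positivity) _ hδ1
    have h4 : (((2 ^ s) ^ K : ℕ) : ℝ) ≤ ((2 ^ s * (L + 1) * (X + 1) : ℕ) : ℝ) := by exact_mod_cast hKle
    push_cast at h4
    exact h4
  have h3 : (k : ℝ) ≤ k * ((X : ℝ) + 1) ^ (1 - δ) := by
    have : (1 : ℝ) ≤ ((X : ℝ) + 1) ^ (1 - δ) := by
      apply Real.one_le_rpow _ hδ1
      have : (0 : ℝ) ≤ X := by positivity
      linarith
    have hk : (0 : ℝ) ≤ k := by positivity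
    nlinarith
  have h4 : ((missed x w ∩ Set.Icc 0 (X : ℤ)).ncard : ℝ) ≤ k + (((2 ^ s - 1) ^ K : ℕ) : ℝ) := by
    exact_mod_cast h1
  rw [add_mul]
  linarith

theorem left_count {x : Conf} {β : ℝ} (hβ : 0 < β) (hx : Rep x β) (w : List (Fin 6)) (ε : ℝ)
    (hε : 0 < ε) : ∃ X₀ : ℕ, ∀ X ≥ X₀,
      ((missed x w ∩ Set.Icc (-(X : ℤ)) 0).ncard : ℝ) ≤ ε * X := by
  classical
  set L := w.length with hL
  obtain ⟨X₁, hX₁⟩ := Pool.Agent.H429R2.Left.density hβ L (code w) (code_lt w) (ε / 2) (by positivity)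
  obtain ⟨X₂, hX₂⟩ := exists_nat_gt ((L + ε) / (ε / 2))
  refine ⟨max X₁ X₂, fun X hX => ?_⟩
  have hXa : X₁ ≤ X := le_trans (le_max_left _ _) hX
  have hXb : X₂ ≤ X := le_trans (le_max_right _ _) hX
  have hsub : missed x w ∩ Set.Icc (-(X : ℤ)) 0 ⊆
      (((Finset.range L).image fun a : ℕ => -(a : ℤ)) : Finset ℤ) ∪
      ((fun i : ℕ => 1 - (L : ℤ) - i) '' (Pool.Agent.H429R2.Left.Bad β L (code w) ∩ Set.Iio (X + 2))) := by
    rintro j ⟨hj, hjX, hj0⟩
    rcases le_or_gt (j + L - 1) 0 with h | h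
    · obtain ⟨J, hJ⟩ := Int.eq_ofNat_of_zero_le (neg_nonneg.2 h)
      right
      refine ⟨J, ⟨left_sub hβ.le hx w j hj J (by omega), ?_⟩, ?_⟩
      · simp only [Set.mem_Iio]; omega
      · show 1 - (L : ℤ) - J = j
        omega
    · left
      simp only [Finset.coe_image, Set.mem_image, Finset.coe_range, Set.mem_Iio]
      exact ⟨(-j).toNat, by omega, by omega⟩
  have hfin : (Pool.Agent.H429R2.Left.Bad β L (code w) ∩ Set.Iio (X + 2)).Finite :=
    (Set.finite_Iio (X + 2)).subset Set.inter_subset_right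
  have h1 : (missed x w ∩ Set.Icc (-(X : ℤ)) 0).ncard ≤
      L + (Pool.Agent.H429R2.Left.Bad β L (code w) ∩ Set.Iio (X + 2)).ncard := by
    refine (Set.ncard_le_ncard hsub ((Finset.finite_toSet _).union (hfin.image _))).trans ?_
    refine (Set.ncard_union_le _ _).trans ?_
    apply Nat.add_le_add
    · rw [Set.ncard_coe_finset]
      exact Finset.card_image_le.trans (by rw [Finset.card_range])
    · exact Set.ncard_image_le hfin
  have h2 := hX₁ (X + 2) (by omega)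
  have h3 : ((missed x w ∩ Set.Icc (-(X : ℤ)) 0).ncard : ℝ) ≤
      L + ((Pool.Agent.H429R2.Left.Bad β L (code w) ∩ Set.Iio (X + 2)).ncard : ℝ) := by
    exact_mod_cast h1
  push_cast at h2
  have h4 : (X₂ : ℝ) ≤ X := by exact_mod_cast hXb
  rw [div_lt_iff₀ (by positivity)] at hX₂
  nlinarith

theorem result (x : Conf) (hx : IsFin x) (hx0 : x ≠ 0) (w : List (Fin 6)) :
    Tendsto (fun X : ℕ => ((missed x w ∩ Set.Icc (-(X : ℤ)) X).ncard : ℝ) / (2 * X + 1)) atTop (𝓝 0) ∧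
    ∃ δ : ℝ, 0 < δ ∧ ∃ C : ℝ, ∀ X : ℕ,
      ((missed x w ∩ Set.Icc 0 (X : ℤ)).ncard : ℝ) ≤ C * ((X : ℝ) + 1) ^ (1 - δ) := by
  obtain ⟨m, k, hrep, hm, _⟩ := exists_rep hx
  have hm := hm hx0
  have hR := right_count hm hrep w
  refine ⟨?_, hR⟩
  obtain ⟨δ, hδ, C, hC⟩ := hR
  have hβ : 0 < (m : ℝ) / 6 ^ k := by positivity
  -- the right part is negligible
  have hright : Tendsto (fun X : ℕ => C * ((X : ℝ) + 1) ^ (1 - δ) / (2 * X + 1)) atTop (𝓝 0) := by
    have h1 : Tendsto (fun X : ℕ => |C| * ((X : ℝ) + 1) ^ (-δ)) atTop (𝓝 0) := by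
      have h2 : Tendsto (fun X : ℕ => (X : ℝ) + 1) atTop atTop :=
        tendsto_atTop_add_const_right _ _ tendsto_natCast_atTop_atTop
      simpa using ((tendsto_rpow_neg_atTop hδ).comp h2).const_mul |C|
    refine squeeze_zero_norm (fun X => ?_) h1
    have hX1 : (0 : ℝ) < (X : ℝ) + 1 := by positivity
    have hX2 : (0 : ℝ) < 2 * (X : ℝ) + 1 := by positivity
    rw [Real.norm_eq_abs, abs_div, abs_mul, abs_of_pos hX2, abs_of_pos (Real.rpow_pos_of_pos hX1 _),
      div_le_iff₀ hX2]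
    have e : ((X : ℝ) + 1) ^ (1 - δ) = ((X : ℝ) + 1) ^ (-δ) * (X + 1) := by
      rw [← Real.rpow_add_one hX1.ne']; congr 1; ring
    rw [e]
    have h3 : 0 ≤ |C| * ((X : ℝ) + 1) ^ (-δ) := mul_nonneg (abs_nonneg _) (Real.rpow_pos_of_pos hX1 _).le
    have h4 : (0 : ℝ) ≤ X := by positivity
    calc |C| * (((X : ℝ) + 1) ^ (-δ) * (X + 1)) = |C| * ((X : ℝ) + 1) ^ (-δ) * (X + 1) := by ring
      _ ≤ |C| * ((X : ℝ) + 1) ^ (-δ) * (2 * X + 1) := mul_le_mul_of_nonneg_left (by linarith) h3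
  rw [Metric.tendsto_atTop]
  intro ε hε
  obtain ⟨X₁, hX₁⟩ := left_count hβ hrep w (ε / 2) (by positivity)
  obtain ⟨X₂, hX₂⟩ := (Metric.tendsto_atTop.1 hright) (ε / 2) (by positivity)
  refine ⟨max X₁ X₂, fun X hX => ?_⟩
  have h1 := hX₁ X (le_trans (le_max_left _ _) hX)
  have h2 := hX₂ X (le_trans (le_max_right _ _) hX)
  have hX0 : (0 : ℝ) ≤ X := by positivity
  have hX2 : (0 : ℝ) < 2 * (X : ℝ) + 1 := by positivity
  rw [Real.dist_eq, sub_zero] at h2 ⊢
  have h3 := (abs_lt.1 h2).2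
  rw [abs_of_nonneg (by positivity)]
  have hsub : missed x w ∩ Set.Icc (-(X : ℤ)) X ⊆
      (missed x w ∩ Set.Icc (-(X : ℤ)) 0) ∪ (missed x w ∩ Set.Icc 0 (X : ℤ)) := by
    rintro j ⟨hj, h4, h5⟩
    rcases le_total j 0 with h | h
    · exact Or.inl ⟨hj, h4, h⟩
    · exact Or.inr ⟨hj, h, h5⟩
  have hf1 : (missed x w ∩ Set.Icc (-(X : ℤ)) 0).Finite := (Set.finite_Icc _ _).subset Set.inter_subset_right
  have hf2 : (missed x w ∩ Set.Icc 0 (X : ℤ)).Finite := (Set.finite_Icc _ _).subset Set.inter_subset_right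
  have h4 : ((missed x w ∩ Set.Icc (-(X : ℤ)) X).ncard : ℝ) ≤
      ((missed x w ∩ Set.Icc (-(X : ℤ)) 0).ncard : ℝ) + ((missed x w ∩ Set.Icc 0 (X : ℤ)).ncard : ℝ) := by
    exact_mod_cast (Set.ncard_le_ncard hsub (hf1.union hf2)).trans (Set.ncard_union_le _ _)
  have h5 := hC X
  rw [div_lt_iff₀ hX2] at h3 ⊢
  nlinarith

end Pool.Agent.Results.MP_cc0c1a_nt.AlmostAllPositions
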