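import Mathlib
import Pool.Agent.H429R2.Mult

set_option autoImplicit false

/-!
# All-or-nothing for the base-6 automaton of multiplication by 3/2

If one finite configuration has a dense orbit then every nonzero finite configuration has one; and
if one nonzero finite configuration has a non-dense orbit then, for every finite configuration,
the contents of the window `[-M, M]` seen along the orbit are an exponentially small proportion
of all words of length `2M+1`.
-/

namespace Pool.Agent.Results.MP_cc0c1a_nt.Dichotomy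

open Pool.Agent.H429R2.Auto Pool.Agent.H429R2.Gap Pool.Agent.H429R2.Mult

/-- The words of length `2M+1` that some `F^n(x)`, `n ≥ 0`, shows in the window `[-M, M]`. -/
def seen (x : Conf) (M : ℕ) : Set (Fin (2 * M + 1) → Fin 6) :=
  Set.range fun n : ℕ => fun i : Fin (2 * M + 1) => F^[n] x (((i : ℕ) : ℤ) - (M : ℤ))

theorem seen_card {x : Conf} {β : ℝ} (hβ : 0 ≤ β) (hx : Rep x β) (M : ℕ) :
    (seen x M).ncard ≤ (Set.range (val β M)).ncard := by
  set g : ℕ → (Fin (2 * M + 1) → Fin 6) := fun v i =>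
    ⟨v / 6 ^ (2 * M - (i : ℕ)) % 6, Nat.mod_lt _ (by norm_num)⟩ with hg
  have h : seen x M = g '' (Set.range (val β M)) := by
    rw [← Set.range_comp]
    unfold seen
    congr 1
    funext n
    funext i
    apply Fin.ext
    have hi := i.isLt
    have h1 := letter (rep_iter hβ hx n) (-(M : ℤ)) (2 * M + 1) (2 * M - (i : ℕ)) (by omega)
    have e1 : -(M : ℤ) + ((2 * M + 1 : ℕ) : ℤ) - 1 = M := by push_cast; ring
    rw [e1, zpow_natCast] at h1
    have e2 : (M : ℤ) - ((2 * M - (i : ℕ) : ℕ) : ℤ) = ((i : ℕ) : ℤ) - (M : ℤ) := by omega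
    rw [e2] at h1
    exact h1
  rw [h]
  exact Set.ncard_image_le (range_finite β M)

theorem not_full_zero : ¬ Full 0 := by
  intro h
  obtain ⟨n, hn⟩ := h 0 1 (by norm_num)
  simp [val] at hn

theorem pos_of_full {m k : ℕ} (h : Full ((m : ℝ) / 6 ^ k)) : 0 < m := by
  rcases Nat.eq_zero_or_pos m with h0 | h0
  · exfalso
    rw [h0] at h
    simp only [Nat.cast_zero, zero_div] at h
    exact not_full_zero h
  · exact h0

/-- the configuration with a single digit one -/
def one : Conf := fun i => if i = 0 then 1 else 0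

theorem one_fin : IsFin one := by
  unfold IsFin one
  refine (Set.finite_singleton (0 : ℤ)).subset ?_
  intro i hi
  simp only [Set.mem_ofPred_eq] at hi
  by_contra h
  apply hi
  simp only [Set.mem_singleton_iff] at h
  simp [h]

theorem one_ne : one ≠ 0 := by
  intro h
  have := congrFun h 0
  simp [one] at this

theorem result :
    ((∃ x : Conf, IsFin x ∧ Dense (orbit x)) ↔
      (∀ x : Conf, IsFin x → x ≠ 0 → Dense (orbit x))) ∧
    ((∃ x : Conf, IsFin x ∧ x ≠ 0 ∧ ¬ Dense (orbit x)) →
      ∀ x : Conf, IsFin x → ∃ δ : ℝ, 0 < δ ∧ ∃ C : ℝ, ∀ M : ℕ,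
        ((seen x M).ncard : ℝ) ≤ C * (6 : ℝ) ^ ((1 - δ) * (2 * M + 1))) := by
  refine ⟨⟨?_, ?_⟩, ?_⟩
  · rintro ⟨x, hx, hd⟩ y hy hy0
    obtain ⟨m, k, hrep, _, _⟩ := exists_rep hx
    obtain ⟨m', k', hrep', hm', _⟩ := exists_rep hy
    have hF := (dense_iff (by positivity) hrep).1 hd
    exact (dense_iff (by positivity) hrep').2 (full_all (pos_of_full hF) (hm' hy0) hF)
  · intro h
    exact ⟨one, one_fin, h one one_fin one_ne⟩
  · rintro ⟨x, hx, hx0, hd⟩ y hy
    obtain ⟨m, k, hrep, hm, _⟩ := exists_rep hx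
    obtain ⟨m', k', hrep', _, _⟩ := exists_rep hy
    have hF : ¬ Full ((m' : ℝ) / 6 ^ k') := by
      intro hF'
      exact hd ((dense_iff (by positivity) hrep).2 (full_all (pos_of_full hF') (hm hx0) hF'))
    obtain ⟨δ, hδ, C, _, hb⟩ := gap (by positivity) hF
    refine ⟨δ, hδ, C, fun M => ?_⟩
    refine le_trans ?_ (hb M)
    exact_mod_cast seen_card (by positivity) hrep' M

end Pool.Agent.Results.MP_cc0c1a_nt.Dichotomy
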